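import Mathlib
import Pool.Agent.U598.Cor.Alg2

/-!
# The corona theorem on the ball for the closed algebras generated by one arbitrary function

`B` is the unit ball of `ℂ^m`. For an arbitrary bounded holomorphic function `G` on `B` let `𝓐_G` be
the closed subalgebra of `H^∞(B)` generated by `G`, by all functions `f ∘ ψ` with `f ∈ H^∞(𝔻)` and
`ψ : B → 𝔻` a holomorphic map with affine fibres, and by all functions which at every boundary point
`p` are asymptotic to a function that is uniformly continuous, in the scaled metric, along the circle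
`{e^{iθ} p}`; the last class contains the ball algebra and all functions
`H (⟨a, z⟩ a + t (z - ⟨a, z⟩ a))` (`H ∈ H^∞(B)`, `‖a‖ = 1`, `0 ≤ t < 1`).

Theorem: corona data `f_1, …, f_N ∈ 𝓐_G` have solutions `g_j ∈ H^∞(B)`. Equivalently: every character
of `H^∞(B)` is, on `𝓐_G`, a limit of evaluations at points of `B`.

Proof: `Pool.Agent.U598.Cor.Alg2`, on the base of the Whitney localisation of the corona problem
(`Pool.Agent.TH310.Cor`) and of the localisation theorem for functions with affine fibres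
(`Pool.Agent.Y263.GF`) of the starting library. On the Whitney cells near a boundary point the data
are, up to small errors, polynomials with constant coefficients in `G` and finitely many functions
with affine fibres.
-/

set_option autoImplicit false

open Metric Set Filter Topology

namespace Pool.Agent.Results.MP_ca0fc2_an.ClosedAlgebras

/-- `ℂ^m` with the Euclidean norm. -/
abbrev V (m : ℕ) := EuclideanSpace ℂ (Fin m)

/-- The automorphisms of the ball (`‖p‖ = 1`, `|a| < 1`) which translate the complex geodesic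
through `0` and `p`: `⟨p, mv p a z⟩ = (⟨p, z⟩ + a) / (1 + conj a ⟨p, z⟩)`. -/
noncomputable def mv {m : ℕ} (p : V m) (a : ℂ) (z : V m) : V m :=
  (1 / (1 + starRingEnd ℂ a * inner ℂ p z)) •
    (((inner ℂ p z : ℂ) + a) • p + ((√(1 - ‖a‖ ^ 2) : ℝ) : ℂ) • (z - (inner ℂ p z : ℂ) • p))

/-- Scaled uniform continuity along the circle `{e^{iθ} p}`: the functions `f ∘ mv p a`, `|a| < 1`,
are equicontinuous at all points `q` of the sphere which are orthogonal to `p`. -/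
def SC {m : ℕ} (p : V m) (f : V m → ℂ) : Prop :=
  ∀ q : V m, ‖q‖ = 1 → (inner ℂ p q : ℂ) = 0 → ∀ ε : ℝ, 0 < ε → ∃ r : ℝ, 0 < r ∧
    ∀ a ∈ ball (0 : ℂ) 1, ∀ z ∈ ball (0 : V m) 1, ∀ w ∈ ball (0 : V m) 1,
      ‖z - q‖ < r → ‖w - q‖ < r → ‖f (mv p a z) - f (mv p a w)‖ ≤ ε

/-- Bounded holomorphic functions on the ball. -/
def HInf {m : ℕ} (f : V m → ℂ) : Prop :=
  DifferentiableOn ℂ f (ball 0 1) ∧ ∃ M : ℝ, ∀ z ∈ ball (0 : V m) 1, ‖f z‖ ≤ M

/-- Bounded holomorphic functions on the ball which at every boundary point `p` are asymptotic to a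
bounded holomorphic function that is scaled uniformly continuous along the circle of `p`. -/
def AS {m : ℕ} (f : V m → ℂ) : Prop :=
  HInf f ∧ ∀ p : V m, ‖p‖ = 1 → ∃ h : V m → ℂ, HInf h ∧ SC p h ∧
    Tendsto (fun z => f z - h z) (𝓝[ball 0 1] p) (𝓝 0)

/-- `ψ` is a holomorphic map from the unit ball to the unit disc, and the fibre of `ψ` through any
point `z` is the part in the ball of the affine subspace `z + ker ψ'(z)`. -/
def HasAffineFibres {m : ℕ} (ψ : V m → ℂ) : Prop :=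
  DifferentiableOn ℂ ψ (ball 0 1) ∧ (∀ z ∈ ball (0 : V m) 1, ‖ψ z‖ < 1) ∧
    ∀ z ∈ ball (0 : V m) 1, ∀ z' ∈ ball (0 : V m) 1, ψ z' = ψ z ↔ fderiv ℂ ψ z (z' - z) = 0

/-- Functions `f ∘ ψ` on the ball, where `ψ` has affine fibres and `f` is bounded and holomorphic on
the unit disc. -/
def AF {m : ℕ} (g : V m → ℂ) : Prop :=
  ∃ (f : ℂ → ℂ) (ψ : V m → ℂ), DifferentiableOn ℂ f (ball 0 1) ∧
    (∃ M : ℝ, ∀ w ∈ ball (0 : ℂ) 1, ‖f w‖ ≤ M) ∧ HasAffineFibres ψ ∧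
    ∀ z ∈ ball (0 : V m) 1, g z = f (ψ z)

theorem AS_iff {m : ℕ} (f : V m → ℂ) : AS f ↔ Pool.Agent.W732.Cor.AS f := by
  constructor
  · rintro ⟨⟨h1, h2⟩, h3⟩
    refine ⟨h1, h2, fun p hp => ?_⟩
    obtain ⟨h, ⟨h4, h5⟩, h6, h7⟩ := h3 p hp
    exact ⟨h, h4, h5, h6, h7⟩
  · rintro ⟨h1, h2, h3⟩
    refine ⟨⟨h1, h2⟩, fun p hp => ?_⟩
    obtain ⟨h, h4, h5, h6, h7⟩ := h3 p hp
    exact ⟨h, ⟨h4, h5⟩, h6, h7⟩

theorem AF_mem {m : ℕ} {G g : V m → ℂ} (h : AF g) : g ∈ Algebra.adjoin ℂ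
    (insert G ({h : V m → ℂ | Pool.Agent.W732.Cor.AS h} ∪ {h | Pool.Agent.U598.Cor.SFn h})) := by
  obtain ⟨f, ψ, hf, ⟨M, hM⟩, hψ, hg⟩ := h
  obtain ⟨M', hM'⟩ : ∃ M', M' = |M| + 1 := ⟨_, rfl⟩
  have hM0 : 0 < M' := by rw [hM']; positivity
  have hMn : ‖(M' : ℂ)‖ = M' := by rw [Complex.norm_real, Real.norm_of_nonneg hM0.le]
  have hMne : (M' : ℂ) ≠ 0 := by exact_mod_cast hM0.ne'
  have h1 : Pool.Agent.U598.Cor.SFn (fun z => (M' : ℂ)⁻¹ * g z) := by
    refine ⟨fun w => (M' : ℂ)⁻¹ * f w, ψ, hf.const_mul _, fun w hw => ?_,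
      ⟨⟨hψ.1, hψ.2.2⟩, hψ.2.1⟩, fun z hz => by simp only [hg z hz]⟩
    rw [norm_mul, norm_inv, hMn, inv_mul_le_iff₀ hM0, mul_one, hM']
    linarith [hM w hw, le_abs_self M]
  have h2 : g = (M' : ℂ) • (fun z => (M' : ℂ)⁻¹ * g z) := by
    funext z
    rw [Pi.smul_apply, smul_eq_mul, mul_inv_cancel_left₀ hMne]
  rw [h2]
  refine Subalgebra.smul_mem _ ?_ _
  refine Algebra.subset_adjoin (mem_insert_of_mem _ ?_)
  exact Or.inr h1

/-- **Corona theorem for the closed algebras `𝓐_G`**, and examples of functions `AS`. -/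
theorem result :
    (∀ (m N : ℕ) (G : V m → ℂ) (f : Fin N → V m → ℂ) (δ : ℝ), HInf G →
      (∀ j, DifferentiableOn ℂ (f j) (ball 0 1)) →
      (∀ j, ∀ ε : ℝ, 0 < ε → ∃ h ∈ Algebra.adjoin ℂ (insert G ({h : V m → ℂ | AS h} ∪ {h | AF h})),
        ∀ z ∈ ball (0 : V m) 1, ‖f j z - h z‖ ≤ ε) →
      0 < δ → (∀ z ∈ ball (0 : V m) 1, δ ≤ ∑ j, ‖f j z‖) →
      ∃ g : Fin N → V m → ℂ, (∀ j, HInf (g j)) ∧
        ∀ z ∈ ball (0 : V m) 1, ∑ j, f j z * g j z = 1) ∧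
    -- the ball algebra
    (∀ (m : ℕ) (f : V m → ℂ), DifferentiableOn ℂ f (ball 0 1) →
      ContinuousOn f (closedBall 0 1) → AS f) ∧
    -- functions `H (⟨a, z⟩ a + t (z - ⟨a, z⟩ a))`
    ∀ (m : ℕ) (a : V m) (t : ℝ) (H : V m → ℂ), ‖a‖ = 1 → 0 ≤ t → t < 1 → HInf H →
      AS (fun z => H ((inner ℂ a z : ℂ) • a + (t : ℂ) • (z - (inner ℂ a z : ℂ) • a))) := by
  refine ⟨fun m N G f δ hG hfd hf hδ hc => ?_, fun m f hd hc => ?_, fun m a t H ha ht0 ht1 hH => ?_⟩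
  · obtain ⟨g, h1, ⟨C, h2⟩, h3⟩ := Pool.Agent.U598.Cor.alg_cor2 N G hG.1 hG.2 f hfd (fun j ε hε => by
      obtain ⟨h, hh, hfh⟩ := hf j ε hε
      refine ⟨h, ?_, hfh⟩
      have hle : Algebra.adjoin ℂ (insert G ({h : V m → ℂ | AS h} ∪ {h | AF h})) ≤
          Algebra.adjoin ℂ (insert G ({h : V m → ℂ | Pool.Agent.W732.Cor.AS h} ∪
            {h | Pool.Agent.U598.Cor.SFn h})) := by
        refine Algebra.adjoin_le ?_
        rintro k (hk | hk | hk)
        · exact Algebra.subset_adjoin (Or.inl hk)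
        · exact Algebra.subset_adjoin (Or.inr (Or.inl ((AS_iff k).1 hk)))
        · exact AF_mem hk
      exact hle hh) δ hδ hc
    exact ⟨g, fun j => ⟨h1 j, C, h2 j⟩, h3⟩
  · exact (AS_iff f).2 (Pool.Agent.W732.Cor.AS.cont Pool.Agent.W732.Cor.t_sc1 hd hc)
  · obtain ⟨hHd, M, hM⟩ := hH
    exact (AS_iff _).2 (Pool.Agent.W732.Cor.AS.tau Pool.Agent.W732.Cor.t_sc1
      Pool.Agent.W732.Cor.t_sc2 ha ht0 ht1 hHd hM)

end Pool.Agent.Results.MP_ca0fc2_an.ClosedAlgebras
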