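import Mathlib
import Pool.Agent.U500.Pt.Contr
import Pool.Agent.U500.Pt.Ext

/-!
# The corona theorem fails if the boundary is rough at one point

For every `n ≥ 2` and every modulus `ω` with `ω(r) / r → ∞` as `r → 0` there is a star-shaped strictly
pseudoconvex domain `D = {ρ < 0} ⊂ ℂⁿ` with a defining function `ρ` of class `C^{1,ω}` which is
strictly plurisubharmonic (Levi form `≥ |v|² / 4`) and, except at one boundary point `q`, of class
`C^∞`, on which the corona theorem fails for two generators.  Moreover `ρ` is as close to `|z|² - 1`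
as we please in `C^{1,ω}`, and the two generators are bounded on the unit ball (which contains `D`) and
holomorphic in a neighbourhood of the closed ball minus the point `q`.

`ρ = |z|² - 1 + ∑ g_k`, where the bump `g_k` sits near the boundary point
`p_k = (c_k, (1 - c_k²)^{1/2}, 0, …)`, `c_k = 100^{-k-1}`:
`g_k(z) = 2 s_k² P_k((z_0 - c_k) / (s_k (1 - c_k²))) χ_k(z_1)`, `χ_k` is a cutoff of size `c_k`,
`P_k ≥ 0` has compact support, `Δ P_k ≥ -1`, `2.6 ≤ P_k ≤ 6.8` near `0` and `P_k` vanishes at the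
`(k+1)`-st roots of unity, and `s_k` decreases rapidly.  The generators are the components of the map
`x ↦ Σ_k` (automorphism of the ball taking the point `p_k'` at distance `≈ s_k²` from `p_k`, and at
bounded hyperbolic distance outside of `D`, to `0`), suitably added up.  If `f_0 h_0 + f_1 h_1 = 1`
with `|h_i| ≤ C` on `D`, then the averages of `h_i` over the discs above the `k+1` dips are
holomorphic on a disc which contains `p_k'` and solve the equation up to `2^{-k} · 16 C` on a smaller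
disc; by the two constants theorem they solve it up to `ε_k → 0` at `p_k'`, where `f_i(p_k') → 0`.
-/

set_option autoImplicit false

open Filter Topology Set
open Pool.Agent.U500.Inst
open scoped ContDiff

namespace Pool.Agent.Results.MP_ca0fc2_an.RoughPoint

/-- **The corona theorem fails on strictly pseudoconvex domains of class `C^{1,ω}`, even if the
boundary is of class `C^∞` except at one point.** -/
theorem result (n : ℕ) (hn : 2 ≤ n) (η : ℝ) (hη : 0 < η) (hη1 : η < 1)
    -- the modulus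
    (om : ℝ → ℝ) (hpos : ∀ r, 0 < r → 0 < om r) (hmono : MonotoneOn om (Ioi 0))
    (hlim : Tendsto (fun r => om r / r) (𝓝[>] 0) atTop) :
    ∃ (ρ : (Fin n → ℂ) → ℝ) (q : Fin n → ℂ) (f : Fin 2 → (Fin n → ℂ) → ℂ),
      -- `ρ` is of class `C^{1,ω}` and close to `|z|² - 1`
      ContDiff ℝ 1 ρ ∧
      (∀ z, |ρ z - (nsq z - 1)| ≤ η ∧ ‖fderiv ℝ (fun z => ρ z - (nsq z - 1)) z‖ ≤ η) ∧
      (∀ z z', z ≠ z' → ‖fderiv ℝ (fun z => ρ z - (nsq z - 1)) z -
        fderiv ℝ (fun z => ρ z - (nsq z - 1)) z'‖ ≤ η * om ‖z - z'‖) ∧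
      -- on the closed ball, except at `q`, it is of class `C^∞` and strictly plurisubharmonic
      nsq q = 1 ∧ (∀ z, nsq z ≤ 1 → z ≠ q →
        ContDiffAt ℝ ∞ ρ z ∧ ∀ v, nsq v / 4 ≤ leviForm ρ z v) ∧
      -- the domain `D = {ρ < 0}` is star-shaped with respect to `0`
      StarConvex ℝ 0 {z | ρ z < 0} ∧ (∀ z, nsq z < (1 - η) ^ 2 → ρ z < 0) ∧
      (∀ z, ρ z < 0 → nsq z < 1) ∧ q ∈ frontier {z | ρ z < 0} ∧
      (∀ z ∈ frontier {z | ρ z < 0}, fderiv ℝ ρ z ≠ 0) ∧
      -- the data are holomorphic near all points of the closed ball other than `q`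
      (∀ j z, nsq z ≤ 1 → z ≠ q → ∀ᶠ y in 𝓝 z, DifferentiableAt ℂ (f j) y) ∧
      (∀ j z, nsq z < 1 → ‖f j z‖ ≤ 4) ∧
      (∀ z, ρ z < 0 → 1 / 25 < ∑ j, ‖f j z‖ ^ 2) ∧
      -- there is no bounded solution of the Bezout equation
      ∀ h : Fin 2 → (Fin n → ℂ) → ℂ, (∀ j, DifferentiableOn ℂ (h j) {z | ρ z < 0}) →
        (∀ z, ρ z < 0 → ∑ j, f j z * h j z = 1) → ∀ C : ℝ, ∃ j z, ρ z < 0 ∧ C < ‖h j z‖ := by
  obtain ⟨n, rfl⟩ := Nat.exists_eq_add_of_le' hn
  set η' : ℝ := min η (1 / 4) with hη'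
  have hη'0 : 0 < η' := lt_min hη (by norm_num)
  have hη'1 : η' ≤ η := min_le_left _ _
  have hη'2 : η' ≤ 1 / 4 := min_le_right _ _
  obtain ⟨s, hs⟩ := Pool.Agent.U500.Pt.exists_good n hη'0 hpos hmono hlim
  have hfun : (fun z : Fin (n + 2) → ℂ => Pool.Agent.U500.Pt.rh n s z - (nsq z - 1)) =
      Pool.Agent.U500.Pt.gS n s := by
    funext z
    unfold Pool.Agent.U500.Pt.rh
    ring
  refine ⟨Pool.Agent.U500.Pt.rh n s, Pool.Agent.U500.Pt.qq n, Pool.Agent.U500.Pt.FF s,
    hs.contDiff_rh, fun z => ⟨?_, ?_⟩, fun z z' hzz => ?_, Pool.Agent.U500.Pt.nsq_qq,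
    fun z hz hzq => ⟨hs.smooth_at (Pool.Agent.U500.Pt.ne_qq hz hzq),
      fun v => hs.levi_rh (Pool.Agent.U500.Pt.ne_qq hz hzq) v⟩,
    fun y hy a b ha hb hab => ?_,
    fun z hz => hs.sub_dom (by linarith) (hz.trans_le ?_), fun z hz => hs.dom_sub hz,
    hs.qq_frontier, fun z hz => hs.fderiv_ne hη'2 (hs.front hz),
    fun j z hz hzq => hs.FF_ext j hz hzq, fun j z hz => hs.FF_le j hz, fun z hz => hs.lower hz,
    fun h hh heq C => hs.no_bounded h hh heq C⟩
  · have h1 := hs.g_nonneg z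
    have h2 := hs.g_le z
    have h3 : Pool.Agent.U500.Pt.rh n s z - (nsq z - 1) = Pool.Agent.U500.Pt.gS n s z :=
      congrFun hfun z
    rw [h3, abs_of_nonneg h1]
    exact h2.trans hη'1
  · rw [hfun]
    exact (hs.fderiv_le z).trans hη'1
  · rw [hfun]
    refine (hs.fderiv_mod hzz).trans ?_
    have := hpos ‖z - z'‖ (norm_pos_iff.2 (sub_ne_zero.2 hzz))
    gcongr
  · rw [smul_zero, zero_add]
    exact hs.star hη'2 hy hb (by linarith)
  · have h1 : 0 < 1 - η := by linarith
    gcongr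

end Pool.Agent.Results.MP_ca0fc2_an.RoughPoint
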