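import Mathlib
import Pool.Agent.U598.Cor.Alg2

/-!
# Corona data on the ball which on each Whitney cell are polynomials in one arbitrary function

`B` is the unit ball of `ℂ^m`; `mv p a` (`‖p‖ = 1`, `|a| < 1`) are the automorphisms of `B` which
translate the complex geodesic through `0` and `p`. For a unit vector `q` orthogonal to `p` and
`ρ > 0` the set `mv p a (B ∩ ball q ρ)` is the cell at the boundary point `mv p a q`, of size
comparable (in the non-isotropic scale) to the distance of this point to the circle `{e^{iθ} p}`.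

A family of tuples `F_i = (F_{i,1}, …, F_{i,N})` is *tame* at a boundary point `q` if

* near `q`, after dropping some of the functions (depending on `i`), the tuple is bounded below by
  `δ` and, up to an error `ε < δ / (2 N)`, consists of polynomials, of bounded degree and with bounded
  coefficients, in one arbitrary bounded holomorphic function `G_i` and in finitely many functions of
  maps with affine fibres; or
* the family is bounded below near `q` and the transported families `F_i ∘ mv q a` (`a` near `1`,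
  index `(i, a)`) are tame at all unit vectors orthogonal to `q`.

So the function `G` and the polynomials may depend on the cell, and the cells may be subdivided again
any number of times. Theorem: a family of tuples, bounded by `1`, which is tame at all boundary points
and bounded below at each interior point uniformly in `i`, has solutions of the Bezout equations with
a common bound.

The proof uses the Whitney localisation (`Pool.Agent.TH310.Cor`) and the localisation theorem for
functions with affine fibres (`Pool.Agent.Y263.GF`) of the starting library. New parts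
(`Pool.Agent.U598.Cor.{Near, Glob, Vals, PolyG}`): the values of a character of the Banach algebra of
bounded families at one arbitrary function and finitely many functions with affine fibres are
simultaneously approached near the base point, over every set of indices which the character charges
(`vals_near`); so polynomials in these functions, with coefficients depending on the index, are under
control (`near_ev`); and localisation at all boundary points (`loc_glob`).
-/

set_option autoImplicit false

open Metric Set Filter Topology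

namespace Pool.Agent.Results.MP_ca0fc2_an.TameCells

/-- `ℂ^m` with the Euclidean norm. -/
abbrev V (m : ℕ) := EuclideanSpace ℂ (Fin m)

/-- The automorphisms of the ball (`‖p‖ = 1`, `|a| < 1`) which translate the complex geodesic
through `0` and `p`: `⟨p, mv p a z⟩ = (⟨p, z⟩ + a) / (1 + conj a ⟨p, z⟩)`. -/
noncomputable def mv {m : ℕ} (p : V m) (a : ℂ) (z : V m) : V m :=
  (1 / (1 + starRingEnd ℂ a * inner ℂ p z)) •
    (((inner ℂ p z : ℂ) + a) • p + ((√(1 - ‖a‖ ^ 2) : ℝ) : ℂ) • (z - (inner ℂ p z : ℂ) • p))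

/-- `ψ` is a holomorphic map from the unit ball to the unit disc, and the fibre of `ψ` through any
point `z` is the part in the ball of the affine subspace `z + ker ψ'(z)`. -/
def HasAffineFibres {m : ℕ} (ψ : V m → ℂ) : Prop :=
  DifferentiableOn ℂ ψ (ball 0 1) ∧ (∀ z ∈ ball (0 : V m) 1, ‖ψ z‖ < 1) ∧
    ∀ z ∈ ball (0 : V m) 1, ∀ z' ∈ ball (0 : V m) 1, ψ z' = ψ z ↔ fderiv ℂ ψ z (z' - z) = 0

/-- Functions `f ∘ ψ` on the ball, where `ψ` has affine fibres and `f` is holomorphic on the unit disc
and bounded by `1`. -/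
def IsAffineFun {m : ℕ} (g : V m → ℂ) : Prop :=
  ∃ (f : ℂ → ℂ) (ψ : V m → ℂ), DifferentiableOn ℂ f (ball 0 1) ∧
    (∀ w ∈ ball (0 : ℂ) 1, ‖f w‖ ≤ 1) ∧ HasAffineFibres ψ ∧ ∀ z ∈ ball (0 : V m) 1, g z = f (ψ z)

/-- Tame families at a boundary point `q`. -/
inductive Tame {m N : ℕ} : (q : V m) → {I : Type} → (F : I → Fin N → V m → ℂ) → Prop
  /-- Near `q`, for each `i` some of the functions `F i j` (`j ∈ S`) are bounded below by `δ` and are,
  up to `ε < δ / (2 N)`, polynomials of degree `< n` in each variable, with coefficients bounded by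
  `K`, in one function `G`, which is holomorphic and bounded by `1` near `q`, and `L` functions
  `g 1, …, g L` with affine fibres. `S`, `G`, `g` and the polynomials may depend on `i`. -/
  | poly (q : V m) {I : Type} (F : I → Fin N → V m → ℂ) (n L : ℕ) (ρ K δ ε : ℝ) (hρ : 0 < ρ)
      (hε : 0 ≤ ε) (hδ : 2 * N * ε < δ)
      (h : ∀ i, ∃ (S : Finset (Fin N)) (G : V m → ℂ) (g : Fin L → V m → ℂ)
        (P : Fin N → Fin n × (Fin L → Fin n) → ℂ),
        DifferentiableOn ℂ G (ball 0 1 ∩ ball q ρ) ∧
        (∀ z ∈ ball (0 : V m) 1 ∩ ball q ρ, ‖G z‖ ≤ 1) ∧ (∀ l, IsAffineFun (g l)) ∧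
        (∀ j x, ‖P j x‖ ≤ K) ∧
        ∀ z ∈ ball (0 : V m) 1 ∩ ball q ρ, δ ≤ ∑ j ∈ S, ‖F i j z‖ ∧
          ∀ j ∈ S, ‖F i j z -
            ∑ x, P j x * (G z ^ (x.1 : ℕ) * ∏ l, g l z ^ (x.2 l : ℕ))‖ ≤ ε) : Tame q F
  /-- The family is bounded below near `q` and the transported families are tame at all unit vectors
  `q'` orthogonal to `q`. -/
  | cells (q : V m) {I : Type} (F : I → Fin N → V m → ℂ) (ρ δ : ℝ) (κ : V m → ℝ) (hρ : 0 < ρ)
      (hδ : 0 < δ) (hκ : ∀ q', 0 < κ q')
      (hlow : ∀ i, ∀ z ∈ ball (0 : V m) 1 ∩ ball q ρ, δ ≤ ∑ j, ‖F i j z‖)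
      (h : ∀ q' : V m, ‖q'‖ = 1 → (inner ℂ q q' : ℂ) = 0 →
        Tame q' (fun (x : I × {a : ℂ // ‖a‖ < 1 ∧ ‖1 - a‖ < κ q'}) j z => F x.1 j (mv q x.2 z))) :
      Tame q F

/-- Uniform solvability: the equations `∑ F i j * g j = 1` have holomorphic solutions on the unit
ball, bounded by a constant which does not depend on `i`. -/
def UnifSolv {m N : ℕ} {I : Type} (F : I → Fin N → V m → ℂ) : Prop :=
  ∃ C : ℝ, ∀ i, ∃ g : Fin N → V m → ℂ, (∀ j, DifferentiableOn ℂ (g j) (ball 0 1)) ∧
    (∀ j, ∀ z ∈ ball (0 : V m) 1, ‖g j z‖ ≤ C) ∧ ∀ z ∈ ball (0 : V m) 1, ∑ j, F i j z * g j z = 1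

theorem affine_SFn {m : ℕ} {g : V m → ℂ} (h : IsAffineFun g) : Pool.Agent.U598.Cor.SFn g := by
  obtain ⟨f, ψ, hf, hfb, hψ, hg⟩ := h
  exact ⟨f, ψ, hf, hfb, ⟨⟨hψ.1, hψ.2.2⟩, hψ.2.1⟩, hg⟩

theorem tame_solvL {m N : ℕ} {q : V m} {I : Type} {F : I → Fin N → V m → ℂ} (h : Tame q F) :
    ‖q‖ = 1 → (∀ i j, Pool.Agent.TH310.Cor.HB (F i j)) → Pool.Agent.TH310.Cor.SolvL F q := by
  induction h with
  | poly q F n L ρ K δ ε hρ hε hδ h =>
    intro hq hF
    refine Pool.Agent.U598.Cor.case_ev (κ := Fin n × (Fin L → Fin n)) (Λ := Fin L) hq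
      (fun x => x.1) (fun x l => x.2 l) hF hρ hδ hε (K := K) fun i => ?_
    obtain ⟨S, G, g, P, h1, h2, h3, h4, h5⟩ := h i
    exact ⟨S, G, g, P, h1, h2, fun l => affine_SFn (h3 l), h4, h5⟩
  | cells q F ρ δ κ hρ hδ hκ hlow h ih =>
    intro hq hF
    have hmv := Pool.Agent.W732.Cor.t_mv
    have hball := Pool.Agent.W732.Cor.t_ball
    refine Pool.Agent.TH310.Cor.whit2 hmv hball hq hF hδ hρ hlow fun q' hq' hqq => ?_
    obtain ⟨C, r, hr, h1⟩ := ih q' hq' hqq hq' (fun x j =>
      (hF x.1 j).comp (Pool.Agent.TH310.Cor.aut_mv hmv hq (mem_ball_zero_iff.2 x.2.2.1)))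
    refine ⟨κ q', hκ q', C, r, hr, fun x => ?_⟩
    exact h1 (x.1, ⟨x.2.1, mem_ball_zero_iff.1 x.2.2.1, x.2.2.2⟩)

/-- **Corona theorem for tame families**: if `F i j` are holomorphic on the ball and bounded by `1`, at
each interior point bounded below uniformly in `i`, and tame at each boundary point, then the Bezout
equations have uniformly bounded holomorphic solutions. -/
theorem result (m N : ℕ) (I : Type) (F : I → Fin N → V m → ℂ)
    (hF : ∀ i j, DifferentiableOn ℂ (F i j) (ball 0 1))
    (hb : ∀ i j, ∀ z ∈ ball (0 : V m) 1, ‖F i j z‖ ≤ 1)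
    (hint : ∀ z ∈ ball (0 : V m) 1, ∃ c : ℝ, 0 < c ∧ ∀ i, c ≤ ∑ j, ‖F i j z‖)
    (hT : ∀ p : V m, ‖p‖ = 1 → Tame p F) : UnifSolv F := by
  have hH : ∀ i j, Pool.Agent.TH310.Cor.HB (F i j) := fun i j => ⟨hF i j, hb i j⟩
  exact Pool.Agent.U598.Cor.loc_glob hH hint fun p hp => tame_solvL (hT p hp) hp hH

end Pool.Agent.Results.MP_ca0fc2_an.TameCells
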