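import Mathlib
import Pool.Agent.U500.Inst.Fin
import Pool.Agent.U500.Inst.Sec

/-!
# The corona constants are not stable under `C¹`-small perturbations of the ball

For every `n ≥ 2` and every `C` there are strictly pseudoconvex domains `D = {ρ < 0} ⊂ ℂⁿ`, `ρ` of
class `C^∞`, bounded in `C²` and arbitrarily close to `|z|² - 1` in `C¹` (hence in `C^{1,α}` for every
`α < 1`), with Levi form bounded from below by almost that of `|z|² - 1`, and two functions `f_0`,
`f_1`, holomorphic in a neighbourhood of the closed unit ball, with `|f_0|² + |f_1|² ≤ 1` on the ball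
and `|f_0|² + |f_1|² > 1 / 10` on `D`, such that every solution of `f_0 h_0 + f_1 h_1 = 1` on
`D` exceeds `C`.

The domain is `|z_0|² + e^{2 u(z_0)} (|z_1|² + … + |z_{n-1}|²) < 1` with
`u(z) = s² (4 + (1/m) log (|(z/s)^m - 1|² + e^{-4m}))`, `m` large and `s` small; `f_0`, `f_1` are the
components of the automorphism of the ball of `ℂ²` (in the variables `z_0`, `z_1`) which exchanges
`0` and `p = (0, w₀)`, `w₀² = 1 - 2 s²`; the point `p` is at bounded distance from `D`.  The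
subharmonic function `u` vanishes at the points `s e^{2πij/m}` and is `≥ 2.6 s²` on `|z| ≤ s / 2`.
The average of `h_1(z, w, 0, …)` over these `m` points is holomorphic and bounded by `sup |h_1|` for
`|w|² < 1 - s²`, and for `|w|² < 1 - 18 s²` it differs from `h_1(0, w, 0, …) = 1 / f_1(0, w, 0, …)`
by at most `2^{1-m} sup |h_1|`; but `1 / f_1(0, w, 0, …)` has a pole at `w = w₀`, `w₀² < 1 - s²`.
-/

set_option autoImplicit false

open Pool.Agent.U500.Inst
open scoped ContDiff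

namespace Pool.Agent.Results.MP_ca0fc2_an.UnstableConstants

/-- **The corona constants are unbounded on `C¹`-small strictly pseudoconvex perturbations of the
ball.** -/
theorem result (n : ℕ) (hn : 2 ≤ n) (C : ℝ) : ∃ K : ℝ, ∀ η : ℝ, 0 < η → η < 1 →
    ∃ (ρ : (Fin n → ℂ) → ℝ) (f : Fin 2 → (Fin n → ℂ) → ℂ) (R : ℝ),
      -- `D = {ρ < 0}` is a domain with `C^∞` boundary
      ContDiff ℝ ∞ ρ ∧ IsConnected {z | ρ z < 0} ∧
      (∀ z ∈ frontier {z | ρ z < 0}, fderiv ℝ ρ z ≠ 0) ∧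
      -- between the balls of radius `1 - η` and `1`
      (∀ z, nsq z < (1 - η) ^ 2 → ρ z < 0) ∧ (∀ z, ρ z < 0 → nsq z < 1) ∧
      -- on the closed ball `ρ` is `C¹`-close to `|z|² - 1`, bounded in `C²` and strictly
      -- plurisubharmonic
      (∀ z, nsq z ≤ 1 → |ρ z - (nsq z - 1)| ≤ η ∧
        ‖fderiv ℝ (fun z => ρ z - (nsq z - 1)) z‖ ≤ η ∧
        ∀ v, |iteratedDeriv 2 (fun σ : ℝ => ρ (z + σ • v)) 0| ≤ K * nsq v ∧
          (1 - η) * nsq v ≤ leviForm ρ z v) ∧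
      -- the data
      1 < R ∧ (∀ j, DifferentiableOn ℂ (f j) {z | nsq z < R ^ 2}) ∧
      (∀ z, nsq z ≤ 1 → ∑ j, ‖f j z‖ ^ 2 ≤ 1) ∧ (∀ z, ρ z < 0 → 1 / 10 < ∑ j, ‖f j z‖ ^ 2) ∧
      -- every solution of the Bezout equation is large
      ∀ h : Fin 2 → (Fin n → ℂ) → ℂ, (∀ j, DifferentiableOn ℂ (h j) {z | ρ z < 0}) →
        (∀ z, ρ z < 0 → ∑ j, f j z * h j z = 1) → ∃ z, ρ z < 0 ∧ C < ‖h 1 z‖ := by
  obtain ⟨n, rfl⟩ := Nat.exists_eq_add_of_le' hn
  obtain ⟨m, hm, hm1, hm2⟩ := choose_m |C|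
  refine ⟨22 + 32 * m * KK m ^ 2, fun η hη hη1 => ?_⟩
  set K : ℝ := 1 + 2 ^ m * Real.exp (2 * m) with hK
  have hK1 : 1 ≤ K := by
    rw [hK]
    have : 0 ≤ 2 ^ m * Real.exp (2 * m) := by positivity
    linarith
  have hnR : (0 : ℝ) ≤ n := by positivity
  set s : ℝ := η / (400 * (K + n + 1)) with hs
  have hs0 : 0 < s := by positivity
  have hsη : 400 * (K + n + 1) * s = η := by
    rw [hs]; field_simp
  have hs1 : 400 * s ≤ η := by nlinarith
  have hs2 : s ≤ 1 / 400 := by linarith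
  have ht1 : s ^ 2 ≤ 1 / 400 := by nlinarith
  have hw0p : 0 < √(1 - 2 * s ^ 2) := by apply Real.sqrt_pos.2; linarith
  have hw0s : √(1 - 2 * s ^ 2) ^ 2 = 1 - 2 * s ^ 2 := Real.sq_sqrt (by linarith)
  have hw01 : √(1 - 2 * s ^ 2) < 1 := by nlinarith
  have hu : ∀ z a : ℂ, |u1 m s z a| ≤ 2 * s * K * ‖a‖ := fun z a => u1_le hm hs0 z a
  have hκ : 0 ≤ 2 * s * K := by positivity
  -- bound of the exponential
  have hexp : ∀ z : ℂ, ‖z‖ ≤ 1 → Real.exp (2 * uu m s z) ≤ 1 + 32 * s := by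
    intro z hz
    have h1 := uu_le_small hm hs0 (by linarith) hz
    have h2 : Real.exp (2 * uu m s z) ≤ Real.exp (16 * s) := Real.exp_le_exp.2 (by linarith)
    have h4 := Real.add_one_le_exp (-(16 * s))
    have h5 : Real.exp (16 * s) * (1 - 16 * s) ≤ 1 := by
      calc Real.exp (16 * s) * (1 - 16 * s) ≤ Real.exp (16 * s) * Real.exp (-(16 * s)) := by
            gcongr
            linarith
        _ = 1 := by rw [← Real.exp_add]; simp
    have h6 : 1 ≤ (1 + 32 * s) * (1 - 16 * s) := by nlinarith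
    have h7 : Real.exp (16 * s) * (1 - 16 * s) ≤ (1 + 32 * s) * (1 - 16 * s) := h5.trans h6
    exact h2.trans (le_of_mul_le_mul_right h7 (by linarith))
  have hx0 : ∀ x : Fin (n + 2) → ℂ, nsq x ≤ 1 → ‖x 0‖ ≤ 1 := by
    intro x hx
    rw [nsq_eq] at hx
    have := NN_nonneg x
    nlinarith [norm_nonneg (x 0)]
  refine ⟨rho n m s, dat n (s ^ 2) √(1 - 2 * s ^ 2), 1 / √(1 - 2 * s ^ 2), contDiff_rho m s,
    connected_dom m s, ?_, ?_, fun z hz => dom_sub_ball hm hz, ?_, ?_, ?_, ?_, ?_, ?_⟩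
  · intro z hz h0
    obtain ⟨v, hv⟩ := r1_zero m s z (frontier_sub m s z hz).ge
    rw [← fderiv_rho, h0] at hv
    exact hv rfl
  · intro x hx
    have hx1 : nsq x ≤ 1 := by nlinarith
    have h1 := hexp (x 0) (hx0 x hx1)
    have h2 := NN_nonneg x
    rw [nsq_eq] at hx
    rw [rho_eq]
    have h3 : Real.exp (2 * uu m s (x 0)) * NN x ≤ (1 + 32 * s) * NN x := by gcongr
    have h4 : ‖x 0‖ ^ 2 + Real.exp (2 * uu m s (x 0)) * NN x ≤ (1 + η) * (‖x 0‖ ^ 2 + NN x) := by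
      nlinarith [sq_nonneg ‖x 0‖]
    have h5 : (1 + η) * (‖x 0‖ ^ 2 + NN x) < (1 + η) * (1 - η) ^ 2 :=
      mul_lt_mul_of_pos_left hx (by linarith)
    have h6 : (1 + η) * (1 - η) ^ 2 ≤ 1 := by nlinarith [mul_pos hη hη]
    linarith
  · intro x hx
    have h1 := hexp (x 0) (hx0 x hx)
    have h2 := one_le_exp_uu hm s (x 0)
    obtain ⟨h3, h4⟩ := close_C1 (e := 32 * s) hκ hu x hx h2 h1 (by linarith)
    have h6 : 4 * (2 * s * K) ≤ η := by nlinarith
    refine ⟨h3.trans (by linarith), h4.trans (by nlinarith), fun v => ⟨?_, ?_⟩⟩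
    · exact second_bound hm hs0 hκ (by linarith) hu x v hx (by linarith)
    refine le_trans ?_ (leviForm_ge hκ hu x v hx (uu_nonneg hm s _) (by linarith))
    have h5 : 0 ≤ nsq v := by
      unfold nsq
      positivity
    nlinarith
  · rw [lt_div_iff₀ hw0p, one_mul]
    exact hw01
  · intro j x hx
    have hx' : nsq x < (1 / √(1 - 2 * s ^ 2)) ^ 2 := hx
    have h1 : ‖x 1‖ ^ 2 ≤ nsq x := by
      rw [nsq_eq]
      have := sq1_le x
      nlinarith [sq_nonneg ‖x 0‖]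
    have h2 : ‖x 1‖ < 1 / √(1 - 2 * s ^ 2) := by
      apply lt_of_pow_lt_pow_left₀ 2 (by positivity)
      linarith
    have h3 : 0 < ‖1 - ((√(1 - 2 * s ^ 2) : ℝ) : ℂ) * x 1‖ := by
      apply den_pos hw0p
      rw [lt_div_iff₀ hw0p] at h2
      linarith
    have h4 : 1 - ((√(1 - 2 * s ^ 2) : ℝ) : ℂ) * x 1 ≠ 0 := norm_pos_iff.1 h3
    have h5 : DifferentiableAt ℂ
        (fun x : Fin (n + 2) → ℂ => (1 - ((√(1 - 2 * s ^ 2) : ℝ) : ℂ) * x 1)⁻¹) x := by
      have h6 : DifferentiableAt ℂ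
        (fun x : Fin (n + 2) → ℂ => 1 - ((√(1 - 2 * s ^ 2) : ℝ) : ℂ) * x 1) x := by fun_prop
      exact h6.inv h4
    apply DifferentiableAt.differentiableWithinAt
    unfold dat
    by_cases hj : j = 0
    · simp only [hj, if_true, div_eq_mul_inv]
      exact DifferentiableAt.fun_mul (by fun_prop) h5
    · simp only [hj, if_false, div_eq_mul_inv]
      exact DifferentiableAt.fun_mul (by fun_prop) h5
  · intro z hz
    exact dat_le (by positivity) hw0s z hz
  · intro z hz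
    exact lt_dat hm hs0 rfl ht1 hw0p hw0s z hz
  · intro h hh heq
    obtain ⟨x, hx1, hx2⟩ := no_small hm hs0 rfl ht1 rfl hm1 hm2 h hh heq
    exact ⟨x, hx1, (le_abs_self C).trans_lt hx2⟩

end Pool.Agent.Results.MP_ca0fc2_an.UnstableConstants
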